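import Pool.Agent.Q92.SE.Rub

/-!
# Rubin's integral refinement of higher rank Stark conjectures, up to a multiple: the fields which suffice
-/

set_option autoImplicit false

namespace Pool.Agent.Results.MP_dd9835_nt.FieldsThatSuffice

open NumberField Pool.Agent.Q92.SD Pool.Agent.Q92.SE

/-- **Theorem.** Let `F` be a number field. A positive multiple of `Θ_{S,T}^{(r)}(0)` is the regulator of
an element of Rubin's lattice for all data over `F` if this is true for the data over finite extensions
`E` of `F` for which the extension is cyclic of degree greater than `1` and `S` consists of the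
archimedean places, the ramified primes and at most one further prime, for
(1) all `E` whose local degrees above `q ∈ S` belong to `D q`, sets closed under multiples without common
divisor, or
(2) all `E` of degree divisible by `p^k` generated by `p`-th roots of products of primes of a given
infinite set, `p = p₁, p₂`. -/
theorem result (F : Type) [Field F] [NumberField F] :
    (∀ (S : Finset ℕ) (D : ℕ → Set ℕ), (∀ q ∈ S, q.Prime) →
      (∀ q ∈ S, ∀ d ∈ D q, ∀ n : ℕ, 0 < n → d * n ∈ D q) →
      (∀ q ∈ S, ∀ g : ℕ, (∀ d ∈ D q, g ∣ d) → g = 1) →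
      (∀ (E : Type) [Field E] [NumberField E] [Algebra F E], LocIn S D E → RubinCyc E) →
      RubinOver F) ∧
    (∀ (p₁ p₂ k : ℕ) (T : Set ℕ), p₁.Prime → p₂.Prime → p₁ ≠ p₂ → (∀ l ∈ T, l.Prime) →
      T.Infinite →
      (∀ (E : Type) [Field E] [NumberField E] [Algebra F E] (p : ℕ), p = p₁ ∨ p = p₂ →
        Q5.BR.IsRadical T p F E → p ^ k ∣ Module.finrank F E → RubinCyc E) → RubinOver F) :=
  ⟨fun _ _ hS hD hD' h => rubin_local hS hD hD' h,
    fun _ _ k _ h₁ h₂ hne hpr hinf h => rubin_radical h₁ h₂ hne hpr hinf k h⟩

end Pool.Agent.Results.MP_dd9835_nt.FieldsThatSuffice
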