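import Pool.Agent.Q280.SI.Rubp

/-!
# Rubin's integral refinement of higher rank Stark conjectures, up to a positive multiple
-/

set_option autoImplicit false

namespace Pool.Agent.Results.MP_dd9835_nt.MultipleInRubinLattice

open NumberField Pool.Agent.Q20.SI Pool.Agent.Q280.SI

/-- **Theorem.** (1) Let `K/F` be an abelian extension, `S`, `T`, `v_1, …, v_r` as in Rubin's conjecture. A
positive multiple of `Θ_{S,T}^{(r)}(0)` is the regulator of an element of Rubin's lattice if and only if
for all characters `χ ≠ 1` with `L_{S,T}^{(r)}(χ, 0) ≠ 0` the defects of Stark's equality satisfy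
`d_σ(χη) d_σ(χ|F₁) d_σ(χ|F₂) = d_σ(χ|F₃)`, for a quadratic character `η` with `χη = -1` at the complex
conjugations and characters `χ|F_i` which are unramified at all finite places (if `χ = -1` at the
complex conjugations, `η = 1` and Stark's equality for `χ` are possible instead).
(2) This holds for all data over `F` if the rational form of Rubin's conjecture holds for the cyclic
extensions of finite extensions of `F` which are unramified at all finite places, and for the cyclic
extensions of `F` and `r` = the number of complex places of `F`, the smallest possible value (for totally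
real `F` the theorem of Siegel and Klingen). -/
theorem result :
    (∀ (F K : Type) [Field F] [NumberField F] [Field K] [NumberField K] [Algebra F K]
      [IsGalois F K] (D : OrderData F K),
      RubinQ1 D ↔ ∀ χ : (K ≃ₐ[F] K) →* ℂˣ, D.Exact χ → (∃ g, χ g ≠ 1) → RelG χ) ∧
    ∀ (F : Type) [Field F] [NumberField F], UnramifiedCase F → MinimalCase F →
      ∀ (K : Type) [Field K] [NumberField K] [Algebra F K] [IsGalois F K] (D : OrderData F K),
        RubinQ1 D :=
  ⟨fun _ _ => fun D => rubin_rel D, fun _ => fun hU hM _ => fun D => rubin_red D hU hM⟩

end Pool.Agent.Results.MP_dd9835_nt.MultipleInRubinLattice
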