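import Pool.Agent.Q280.SI.Sprp

/-!
# Rubin's integral refinement of higher rank Stark conjectures, up to a positive multiple: special extensions
-/

set_option autoImplicit false

namespace Pool.Agent.Results.MP_dd9835_nt.OnePrimeSuffices

open NumberField Pool.Agent.Q20.SI Pool.Agent.Q280.SI

/-- **Theorem.** Let `Q` be a finite set of prime numbers. A positive multiple of `Θ_{S,T}^{(r)}(0)` is the
regulator of an element of Rubin's lattice for all data if and only if this is true for the cyclic
extensions `L/E` of degree greater than `1` and `S` = the archimedean places, the ramified primes and at
most one further prime, such that (a) `E` is totally complex and all ramified primes lie above one prime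
number (and the primes above the other elements of `Q` split completely), or (b) `E` is totally complex and
the degree is a power of an odd prime, or (c) the degree is a power of `2` and `L` is totally complex or
unramified over `E` at all primes. -/
theorem result (Q : Finset ℕ) (hQ : ∀ q ∈ Q, q.Prime) :
    (∀ (F K : Type) [Field F] [NumberField F] [Field K] [NumberField K] [Algebra F K]
      [IsGalois F K] (D : OrderData F K), RubinQ1 D) ↔ SpecialRubin Q :=
  special_rubin hQ

end Pool.Agent.Results.MP_dd9835_nt.OnePrimeSuffices
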